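import Mathlib
import Pool.Agent.H892.KT.EN

/-!
# Functions with zero derivative in the first variable
-/

set_option autoImplicit false

open Filter Topology Set

namespace Pool.Agent.H402.KT

open Pool.Agent.H892.KT

theorem t_CST : S_CST := by
  intro δ F hF hz Y hY
  have hmem : ∀ x : ℂ, x ∈ Metric.ball (0 : ℂ) δ → ((x, Y.2) : ℂ × ℂ) ∈ Metric.ball (0 : ℂ × ℂ) δ := by
    intro x hx
    rw [mem_ball_zero_iff] at hx hY ⊢
    rw [Prod.norm_def]
    exact max_lt hx ((norm_snd_le Y).trans_lt hY)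
  have hd : ∀ x ∈ Metric.ball (0 : ℂ) δ, HasDerivAt (fun x : ℂ => F (x, Y.2)) 0 x := by
    intro x hx
    have h1 : HasFDerivAt F (fderiv ℂ F (x, Y.2)) (x, Y.2) :=
      ((hF _ (hmem x hx)).differentiableAt (Metric.isOpen_ball.mem_nhds (hmem x hx))).hasFDerivAt
    have h2 : HasDerivAt (fun x : ℂ => ((x, Y.2) : ℂ × ℂ)) ((1 : ℂ), (0 : ℂ)) x :=
      (hasDerivAt_id x).prodMk (hasDerivAt_const x Y.2)
    have h3 := h1.comp_hasDerivAt x h2
    rw [hz _ (hmem x hx)] at h3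
    exact h3
  have hδ : 0 < δ := (norm_nonneg Y).trans_lt (mem_ball_zero_iff.1 hY)
  have h1 : Y.1 ∈ Metric.ball (0 : ℂ) δ :=
    mem_ball_zero_iff.2 ((norm_fst_le Y).trans_lt (mem_ball_zero_iff.1 hY))
  have h2 : (0 : ℂ) ∈ Metric.ball (0 : ℂ) δ := Metric.mem_ball_self hδ
  have h3 := Metric.isOpen_ball.is_const_of_deriv_eq_zero
    (convex_ball (0 : ℂ) δ).isPreconnected
    (fun x hx => (hd x hx).differentiableAt.differentiableWithinAt)
    (fun x hx => (hd x hx).deriv) h1 h2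
  exact h3

end Pool.Agent.H402.KT
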